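import Pool.Agent.QEP.Stmts

/-!
# QEP, row TRA (helper3): transfer of a near crossing to a higher level
-/

namespace Pool.Agent.QEP.H3

open Pool.Agent.QEP

theorem nb {N i i' : ℕ} (hN : 0 < N) (h1 : i < i' + N) (h2 : i' < i + N) (hne : i / N ≠ i' / N) :
    i' / N = i / N + 1 ∨ i / N = i' / N + 1 := by
  have h3 : i / N ≤ i' / N + 1 := by
    calc i / N ≤ (i' + N) / N := Nat.div_le_div_right h1.le
      _ = i' / N + 1 := Nat.add_div_right i' hN
  have h4 : i' / N ≤ i / N + 1 := by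
    calc i' / N ≤ (i + N) / N := Nat.div_le_div_right h2.le
      _ = i / N + 1 := Nat.add_div_right i hN
  omega

theorem bd {N i i' : ℕ} (hN : 0 < N) (h : i' / N = i / N + 1 ∨ i / N = i' / N + 1) :
    |(i : ℝ) - N * ((max (i / N) (i' / N) : ℕ) : ℝ)| ≤ |(i : ℝ) - i'| := by
  have a1 : N * (i / N) ≤ i := Nat.mul_div_le i N
  have a2 : i < N * (i / N + 1) := Nat.lt_mul_div_succ i hN
  have b1 : N * (i' / N) ≤ i' := Nat.mul_div_le i' N
  have b2 : i' < N * (i' / N + 1) := Nat.lt_mul_div_succ i' hN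
  rcases h with h | h
  · have hm : max (i / N) (i' / N) = i' / N := max_eq_right (by omega)
    rw [← h] at a2
    have c1 : (N : ℝ) * ((i' / N : ℕ) : ℝ) ≤ i' := by exact_mod_cast b1
    have c2 : (i : ℝ) < N * ((i' / N : ℕ) : ℝ) := by exact_mod_cast a2
    rw [hm, abs_sub_comm, abs_of_nonneg (by linarith), abs_sub_comm, abs_of_nonneg (by linarith)]
    linarith
  · have hm : max (i / N) (i' / N) = i / N := max_eq_left (by omega)
    rw [← h] at b2
    have c1 : (N : ℝ) * ((i / N : ℕ) : ℝ) ≤ i := by exact_mod_cast a1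
    have c2 : (i' : ℝ) < N * ((i / N : ℕ) : ℝ) := by exact_mod_cast b2
    rw [hm, abs_of_nonneg (by linarith), abs_of_nonneg (by linarith)]
    linarith

theorem near {k i i' : ℕ} (h : dist i i' < (9 : ℝ) ^ k / 2) :
    i < i' + 9 ^ k ∧ i' < i + 9 ^ k ∧ |(i : ℝ) - i'| < 9 ^ k / 2 := by
  rw [Nat.dist_eq] at h
  have h9 : (0 : ℝ) < 9 ^ k := by positivity
  have h' := abs_lt.1 h
  refine ⟨?_, ?_, h⟩
  · have : (i : ℝ) < (i' : ℝ) + 9 ^ k := by linarith [h'.2]
    exact_mod_cast this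
  · have : (i' : ℝ) < (i : ℝ) + 9 ^ k := by linarith [h'.1]
    exact_mod_cast this

theorem step {P : ℕ → ℤ} (hadj : ∀ i, |P (i + 1) - P i| ≤ 1) {a b : ℕ}
    (h : b = a + 1 ∨ a = b + 1) : |P b - P a| ≤ 1 := by
  rcases h with rfl | rfl
  · exact hadj a
  · rw [abs_sub_comm]
    exact hadj b

theorem div_split {k k' i : ℕ} (hk : k < k') : i / 9 ^ k' = i / 9 ^ k / 9 ^ (k' - k) := by
  rw [Nat.div_div_eq_div_mul, ← pow_add]
  congr 2
  omega

theorem pow3 {k k' : ℕ} (hk : k < k') : ∃ c : ℤ, 0 < c ∧ (3 : ℤ) ^ (k' - k) = 3 * c := by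
  obtain ⟨m, hm⟩ : ∃ m, k' - k = m + 1 := ⟨k' - k - 1, by omega⟩
  refine ⟨3 ^ m, by positivity, ?_⟩
  rw [hm, pow_succ]
  ring

theorem div_a {c L : ℤ} (hc : 0 < c) : (3 * c * L) / (3 * c) = L := by
  exact Int.mul_ediv_cancel_left L (by positivity)

theorem div_b {c L : ℤ} (hc : 0 < c) : (3 * c * L - 1) / (3 * c) = L - 1 := by
  have h1 : 3 * c * L - 1 = (3 * c - 1) + 3 * c * (L - 1) := by ring
  rw [h1, Int.add_mul_ediv_left _ _ (by positivity)]
  rw [Int.ediv_eq_zero_of_lt (by linarith) (by linarith)]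
  ring

theorem tra : TRAStmt := by
  intro P hP hadj h0
  constructor
  · intro k k' i L hk hi hdist
    obtain ⟨c, hc, hc3⟩ := pow3 hk
    rw [hc3] at hi
    have hne : ({j : ℕ | P (j / 9 ^ k) % 3 = 0}).Nonempty := ⟨0, by simp [h0]⟩
    obtain ⟨i', hi', hd⟩ := (Metric.infDist_lt_iff hne).1 hdist
    obtain ⟨d1, d2, d3⟩ := near hd
    have hi'' : P (i' / 9 ^ k) % 3 = 0 := hi'
    have h9 : 0 < 9 ^ k := by positivity
    have h9' : 0 < 9 ^ k' := by positivity
    have hle : 9 ^ k ≤ 9 ^ k' := Nat.pow_le_pow_right (by norm_num) hk.le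
    have hq : i / 9 ^ k ≠ i' / 9 ^ k := by
      intro h
      rw [← h, hi] at hi''
      have : 3 * c * L - 1 = 3 * (c * L) - 1 := by ring
      rw [this] at hi''
      omega
    have hb := step hadj (nb h9 d1 d2 hq)
    have hPb : P (i' / 9 ^ k) = 3 * c * L := by
      rw [hi] at hb
      have h1 := abs_le.1 hb
      have : 3 * c * L = 3 * (c * L) := by ring
      rw [this] at h1 ⊢
      omega
    have hI : P (i / 9 ^ k') = L - 1 := by
      rw [div_split hk, hP, hi, hc3, div_b hc]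
    have hI' : P (i' / 9 ^ k') = L := by
      rw [div_split hk, hP, hPb, hc3, div_a hc]
    have hne' : i / 9 ^ k' ≠ i' / 9 ^ k' := by
      intro h
      rw [h, hI'] at hI
      omega
    have hn := nb h9' (by omega) (by omega) hne'
    refine ⟨i' / 9 ^ k', hn, hI', hI, ?_⟩
    have := bd h9' hn
    push_cast at this ⊢
    exact lt_of_le_of_lt this d3
  · intro k k' j L hk hj hex hdist
    obtain ⟨c, hc, hc3⟩ := pow3 hk
    rw [hc3] at hj
    obtain ⟨n, hn⟩ := hex
    have hne : ({j : ℕ | P (j / 9 ^ k) % 3 = 2}).Nonempty := ⟨n, hn⟩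
    obtain ⟨i', hi', hd⟩ := (Metric.infDist_lt_iff hne).1 hdist
    obtain ⟨d1, d2, d3⟩ := near hd
    have hi'' : P (i' / 9 ^ k) % 3 = 2 := hi'
    have h9 : 0 < 9 ^ k := by positivity
    have h9' : 0 < 9 ^ k' := by positivity
    have hle : 9 ^ k ≤ 9 ^ k' := Nat.pow_le_pow_right (by norm_num) hk.le
    have hq : j / 9 ^ k ≠ i' / 9 ^ k := by
      intro h
      rw [← h, hj] at hi''
      have : 3 * c * L = 3 * (c * L) := by ring
      rw [this] at hi''
      omega
    have hb := step hadj (nb h9 d1 d2 hq)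
    have hPb : P (i' / 9 ^ k) = 3 * c * L - 1 := by
      rw [hj] at hb
      have h1 := abs_le.1 hb
      have : 3 * c * L = 3 * (c * L) := by ring
      rw [this] at h1 ⊢
      omega
    have hI : P (j / 9 ^ k') = L := by
      rw [div_split hk, hP, hj, hc3, div_a hc]
    have hI' : P (i' / 9 ^ k') = L - 1 := by
      rw [div_split hk, hP, hPb, hc3, div_b hc]
    have hne' : j / 9 ^ k' ≠ i' / 9 ^ k' := by
      intro h
      rw [h, hI'] at hI
      omega
    have hn := nb h9' (by omega) (by omega) hne'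
    refine ⟨i' / 9 ^ k', hn, hI', hI, ?_⟩
    have := bd h9' hn
    push_cast at this ⊢
    exact lt_of_le_of_lt this d3

end Pool.Agent.QEP.H3
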